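import Pool.Agent.N242.VD.Cor

/-!
# MP_3191e9_an: separable Hilbert space has no Voronoi tilings by uniformly bounded cells

Author: helper242 (project VD).

All known tilings of (non-separable) Hilbert spaces by translates of a bounded convex body, or by
balls of an equivalent norm, are tilings by the Voronoi cells of a discrete subgroup.  We prove that
this is impossible in the separable case, for every equivalent Hilbert norm, for every set of
centres, for additive weights, and for every equivalent norm with quadratic gain in far directions;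
more generally no countable family of closed convex sets covering an infinite-dimensional Hilbert
space carries a uniformly continuous function which gains quadratically in far directions inside of
the sets.
-/

set_option autoImplicit false

open Metric Set Filter Topology

namespace Pool.Agent.Results.MP_3191e9_an.VoronoiTilings

universe u

section defs

variable {H : Type u} [NormedAddCommGroup H] [InnerProductSpace ℝ H]

/-- `K` is a bounded convex body. -/
def IsBody (K : Set H) : Prop :=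
  IsClosed K ∧ Convex ℝ K ∧ Bornology.IsBounded K ∧ (interior K).Nonempty

/-- `𝒯` is a tiling of `H` by bounded convex bodies. -/
def IsTiling (𝒯 : Set (Set H)) : Prop :=
  (∀ T ∈ 𝒯, IsBody T) ∧ ⋃₀ 𝒯 = univ ∧ 𝒯.Pairwise fun S T => Disjoint (interior S) (interior T)

/-- `𝒯` is a covering of `H` by countably many closed convex sets. -/
def IsConvexCovering (𝒯 : Set (Set H)) : Prop :=
  𝒯.Countable ∧ (∀ T ∈ 𝒯, IsClosed T ∧ Convex ℝ T) ∧ ⋃₀ 𝒯 = univ

/-- `D` gains quadratically (with constant `c`) in far directions inside of `T`: if the closed ball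
with centre `x` and radius `τ > 0` is contained in `T` and `N` is a finite-dimensional subspace, then
`D (x + δ) ≥ D x + c τ²` for some vector `δ` of norm `τ` orthogonal to `N`. -/
def Gains (D : H → ℝ) (c : ℝ) (T : Set H) : Prop :=
  ∀ (x : H) (τ : ℝ), 0 < τ → closedBall x τ ⊆ T → ∀ N : Submodule ℝ H, FiniteDimensional ℝ N →
    ∃ δ ∈ Nᗮ, ‖δ‖ = τ ∧ D x + c * τ ^ 2 ≤ D (x + δ)

/-- `p` is an equivalent norm on `H` whose square gains quadratically in far directions. -/
def IsGainNorm (p : Seminorm ℝ H) : Prop :=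
  (∃ c C : ℝ, 0 < c ∧ ∀ x, c * ‖x‖ ≤ p x ∧ p x ≤ C * ‖x‖) ∧
    ∃ c > 0, Gains (fun x => p x ^ 2) c univ

/-- The translate `a + K`. -/
def translate (K : Set H) (a : H) : Set H := {x | x - a ∈ K}

end defs

section lemmas

variable {H : Type u} [NormedAddCommGroup H] [InnerProductSpace ℝ H]

theorem tiling_countable [TopologicalSpace.SeparableSpace H] {𝒯 : Set (Set H)}
    (hT : IsTiling 𝒯) : 𝒯.Countable := by
  refine Set.PairwiseDisjoint.countable_of_isOpen (s := fun T : Set H => interior T) ?_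
    (fun _ _ => isOpen_interior) (fun T h => (hT.1 T h).2.2.2)
  intro S hS T hTT hST
  exact hT.2.2 hS hTT hST

variable [CompleteSpace H]

/-- Weighted Voronoi tilings for a norm with gain. -/
theorem no_voronoi (p : Seminorm ℝ H) (hp : IsGainNorm p) {𝒯 : Set (Set H)}
    (hT : IsConvexCovering 𝒯) (a : Set H → H) (w : Set H → ℝ) (R : ℝ)
    (hR : ∀ T ∈ 𝒯, ∀ x ∈ T, p (x - a T) ≤ R) :
    ∃ T ∈ 𝒯, ∃ x ∈ T, ∃ S ∈ 𝒯, p (x - a S) ^ 2 + w S < p (x - a T) ^ 2 + w T := by
  by_contra hcon
  push Not at hcon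
  obtain ⟨⟨c, C, hc, hpe⟩, c', hc', hgain⟩ := hp
  have : Countable 𝒯 := hT.1.to_subtype
  refine Pool.Agent.N242.VD.Cor.voronoi p (C := C) (fun x => (hpe x).2)
    ⟨c', hc', fun x τ hτ N hN => hgain x τ hτ (subset_univ _) N hN⟩ (fun T : 𝒯 => (T : Set H))
    (fun T => (hT.2.1 T T.2).1) (fun T => (hT.2.1 T T.2).2) ?_ (fun T => a T) (fun T => w T)
    (R := R) (fun T x hx => hR T T.2 x hx) (fun T x hx S => hcon T T.2 x hx S S.2)
  intro x
  obtain ⟨T, hTT, hx⟩ : x ∈ ⋃₀ 𝒯 := by rw [hT.2.2]; trivial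
  exact ⟨⟨T, hTT⟩, hx⟩

end lemmas

/-- **Theorem.**  Let `H` be an infinite-dimensional real Hilbert space.

(1) No covering of `H` by countably many closed convex sets carries a uniformly continuous function
which gains quadratically in far directions inside of the sets.

(2) If a convex function `φ` is at bounded distance from the square of an equivalent Hilbert norm,
then it is not affine on all members of a covering of `H` by countably many closed convex sets.

(3) If `A` is a countable set which is relatively dense, then some point of `H` has no nearest point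
in `A`, for every equivalent Hilbert norm.  (So the Voronoi cells do not cover `H`.)

(4) If `H` is separable and `{a + K : a ∈ A}` is a tiling of `H` for a bounded convex body `K`, then
`K` is not the Voronoi cell of `A`: for every equivalent norm `p` with quadratic gain there are
`a ∈ A`, a point `x` of `a + K` and `b ∈ A` such that `x` is nearer to `b` than to `a`.

(5) If `H` is separable, then `H` has no tiling by unit balls of an equivalent norm with quadratic
gain.

(6) All equivalent Hilbert norms have quadratic gain. -/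
theorem result (H : Type u) [NormedAddCommGroup H] [InnerProductSpace ℝ H] [CompleteSpace H]
    (hinf : ¬ FiniteDimensional ℝ H) :
    (∀ 𝒯 : Set (Set H), IsConvexCovering 𝒯 → ∀ D : H → ℝ, UniformContinuous D → ∀ c > 0,
      ∃ T ∈ 𝒯, ¬ Gains D c T) ∧
    (∀ 𝒯 : Set (Set H), IsConvexCovering 𝒯 → ∀ (L : H ≃L[ℝ] H) (φ : H → ℝ) (M : ℝ),
      ConvexOn ℝ univ φ → (∀ x, |φ x - ‖L x‖ ^ 2| ≤ M) →
      ∃ T ∈ 𝒯, ¬ ∃ (f : H →L[ℝ] ℝ) (e : ℝ), ∀ x ∈ T, φ x = f x + e) ∧
    (∀ A : Set H, A.Countable → ∀ (L : H ≃L[ℝ] H) (r : ℝ), (∀ x, ∃ a ∈ A, ‖L (x - a)‖ ≤ r) →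
      ∃ x, ∀ a ∈ A, ∃ b ∈ A, ‖L (x - b)‖ < ‖L (x - a)‖) ∧
    (TopologicalSpace.SeparableSpace H → ∀ K : Set H, IsBody K → ∀ A : Set H,
      IsTiling (translate K '' A) → ∀ p : Seminorm ℝ H, IsGainNorm p →
      ∃ a ∈ A, ∃ x ∈ translate K a, ∃ b ∈ A, p (x - b) < p (x - a)) ∧
    (TopologicalSpace.SeparableSpace H → ∀ p : Seminorm ℝ H, IsGainNorm p → ∀ A : Set H,
      ¬ IsTiling (translate {x | p x ≤ 1} '' A)) ∧
    ∀ L : H ≃L[ℝ] H, IsGainNorm ((normSeminorm ℝ H).comp (L : H →ₗ[ℝ] H)) := by
  have h7 : ∀ L : H ≃L[ℝ] H, IsGainNorm ((normSeminorm ℝ H).comp (L : H →ₗ[ℝ] H)) := by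
    intro L
    have happ : ∀ x, ((normSeminorm ℝ H).comp (L : H →ₗ[ℝ] H)) x = ‖L x‖ := fun x => rfl
    refine ⟨?_, ?_⟩
    · obtain ⟨k, hk⟩ : ∃ k, k = ‖(L.symm : H →L[ℝ] H)‖ + 1 := ⟨_, rfl⟩
      have hk0 : 0 < k := by rw [hk]; positivity
      refine ⟨k⁻¹, ‖(L : H →L[ℝ] H)‖, by positivity, fun x => ?_⟩
      rw [happ]
      refine ⟨?_, (L : H →L[ℝ] H).le_opNorm x⟩
      rw [inv_mul_le_iff₀ hk0]
      have h3 := (L.symm : H →L[ℝ] H).le_opNorm (L x)
      simp only [ContinuousLinearEquiv.coe_coe, ContinuousLinearEquiv.symm_apply_apply] at h3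
      have h4 : 0 ≤ ‖L x‖ := norm_nonneg _
      rw [hk]
      nlinarith
    · obtain ⟨c, hc, h⟩ := Pool.Agent.N242.VD.Cor.hilbert_gain hinf L
      refine ⟨c, hc, fun x τ hτ _ N hN => ?_⟩
      obtain ⟨δ, hδ, hδn, -, hδL⟩ := h x τ hτ N hN 0
      exact ⟨δ, hδ, hδn, hδL⟩
  have h5 : TopologicalSpace.SeparableSpace H → ∀ K : Set H, IsBody K → ∀ A : Set H,
      IsTiling (translate K '' A) → ∀ p : Seminorm ℝ H, IsGainNorm p →
      ∃ a ∈ A, ∃ x ∈ translate K a, ∃ b ∈ A, p (x - b) < p (x - a) := by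
    intro hsep K hK A hA p hp
    obtain ⟨R₀, hR₀⟩ := hK.2.2.1.exists_norm_le
    obtain ⟨c, C, hc, hpe⟩ := hp.1
    -- centres
    have hex : ∀ T : Set H, ∃ a : H, T ∈ translate K '' A → a ∈ A ∧ translate K a = T := by
      intro T
      by_cases h : T ∈ translate K '' A
      · obtain ⟨a, ha, haT⟩ := h
        exact ⟨a, fun _ => ⟨ha, haT⟩⟩
      · exact ⟨0, fun h' => absurd h' h⟩
    choose a ha using hex
    have hcov : IsConvexCovering (translate K '' A) :=
      ⟨tiling_countable hA, fun T hT => ⟨(hA.1 T hT).1, (hA.1 T hT).2.1⟩, hA.2.1⟩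
    obtain ⟨T, hT, x, hx, S, hS, h⟩ := no_voronoi p hp hcov a (fun _ => 0) (|C| * R₀) (by
      intro T hT x hx
      obtain ⟨haA, haT⟩ := ha T hT
      rw [← haT] at hx
      have hy : x - a T ∈ K := hx
      refine (hpe _).2.trans ?_
      have h2 := hR₀ _ hy
      have h3 := le_abs_self C
      have h4 := norm_nonneg (x - a T)
      have h5 := abs_nonneg C
      nlinarith)
    obtain ⟨haA, haT⟩ := ha T hT
    obtain ⟨hbA, -⟩ := ha S hS
    refine ⟨a T, haA, x, by rw [haT]; exact hx, a S, hbA, ?_⟩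
    rw [add_zero, add_zero] at h
    exact lt_of_pow_lt_pow_left₀ 2 (apply_nonneg p _) h
  refine ⟨?_, ?_, ?_, h5, ?_, h7⟩
  · intro 𝒯 h𝒯 D hD c hc
    by_contra hcon
    push Not at hcon
    exact Pool.Agent.N242.VD.Gain.main hD hc h𝒯.1 (fun T hT => (h𝒯.2.1 T hT).1)
      (fun T hT => (h𝒯.2.1 T hT).2) hcon h𝒯.2.2
  · intro 𝒯 h𝒯 L φ M hφ hM
    by_contra hcon
    push Not at hcon
    exact Pool.Agent.N242.VD.Cor.convex_function hinf h𝒯.1 (fun T hT => (h𝒯.2.1 T hT).1)
      (fun T hT => (h𝒯.2.1 T hT).2) h𝒯.2.2 L hφ hM hcon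
  · intro A hA L r hr
    by_contra hcon
    push Not at hcon
    obtain ⟨⟨c, C, hc, hpe⟩, c', hc', hgain⟩ := h7 L
    have happ : ∀ x, ((normSeminorm ℝ H).comp (L : H →ₗ[ℝ] H)) x = ‖L x‖ := fun x => rfl
    have : Countable A := hA.to_subtype
    refine Pool.Agent.N242.VD.Cor.voronoi ((normSeminorm ℝ H).comp (L : H →ₗ[ℝ] H)) (C := C)
      (fun x => (hpe x).2) ⟨c', hc', fun x τ hτ N hN => hgain x τ hτ (subset_univ _) N hN⟩
      (fun a : A => {x | ∀ b ∈ A, ‖L (x - a)‖ ≤ ‖L (x - b)‖}) ?_ ?_ ?_ (fun a => (a : H))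
      (fun _ => 0) (R := r) ?_ ?_
    · intro a
      have h1 : {x | ∀ b ∈ A, ‖L (x - a)‖ ≤ ‖L (x - b)‖} =
          ⋂ b ∈ A, {x | ‖L (x - a)‖ ≤ ‖L (x - b)‖} := by
        ext x; simp
      rw [h1]
      exact isClosed_biInter fun b _ => isClosed_le
        ((L.continuous.comp (continuous_id.sub continuous_const)).norm)
        ((L.continuous.comp (continuous_id.sub continuous_const)).norm)
    · intro a
      have h1 : {x | ∀ b ∈ A, ‖L (x - a)‖ ≤ ‖L (x - b)‖} =
          ⋂ b ∈ A, {x | inner ℝ (L (b - a)) (L x) ≤ (‖L b‖ ^ 2 - ‖L a‖ ^ 2) / 2} := by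
        ext x
        simp only [mem_ofPred_eq, mem_iInter]
        refine forall₂_congr fun b _ => ?_
        rw [← sq_le_sq₀ (norm_nonneg _) (norm_nonneg _), map_sub, map_sub, map_sub,
          norm_sub_sq_real, norm_sub_sq_real, inner_sub_left, real_inner_comm (L x) (L b),
          real_inner_comm (L x) (L a)]
        constructor <;> intro h <;> linarith
      rw [h1]
      refine convex_iInter₂ fun b _ => ?_
      exact convex_halfSpace_le ⟨fun x y => by rw [map_add, inner_add_right],
        fun c x => by rw [map_smul, real_inner_smul_right, smul_eq_mul]⟩ _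
    · intro x
      obtain ⟨a, ha, h⟩ := hcon x
      exact ⟨⟨a, ha⟩, h⟩
    · intro a x hx
      obtain ⟨b, hb, hbr⟩ := hr x
      exact (hx b hb).trans hbr
    · intro a x hx b
      rw [add_zero, add_zero]
      exact pow_le_pow_left₀ (apply_nonneg _ _) (hx b b.2) 2
  · intro hsep p hp A hA
    obtain ⟨c, C, hc, hpe⟩ := hp.1
    have hne : A.Nonempty := by
      obtain ⟨T, ⟨a, ha, -⟩, -⟩ : (0 : H) ∈ ⋃₀ (translate ({x | p x ≤ 1}) '' A) := by
        rw [hA.2.1]; trivial
      exact ⟨a, ha⟩
    have hint : ∀ a m : H, p (m - a) < 1 → m ∈ interior (translate ({x | p x ≤ 1}) a) := by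
      intro a m hm
      have hC : 0 < |C| + 1 := by positivity
      rw [mem_interior_iff_mem_nhds, Metric.mem_nhds_iff]
      refine ⟨(1 - p (m - a)) / (|C| + 1), by
        have : 0 < 1 - p (m - a) := by linarith
        positivity, fun x hx => ?_⟩
      rw [mem_ball, dist_eq_norm, lt_div_iff₀ hC] at hx
      show p (x - a) ≤ 1
      have h1 : x - a = (x - m) + (m - a) := by abel
      have h2 := map_add_le_add p (x - m) (m - a)
      rw [← h1] at h2
      have h3 := (hpe (x - m)).2
      have h4 := le_abs_self C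
      have h5 := norm_nonneg (x - m)
      nlinarith
    have hbody : IsBody ({x | p x ≤ 1}) := by
      obtain ⟨a, ha⟩ := hne
      obtain ⟨h1, h2, h3, h4⟩ := hA.1 _ ⟨a, ha, rfl⟩
      refine ⟨?_, ?_, ?_, ?_⟩
      · have h5 := h1.preimage (continuous_id.add (continuous_const (y := a)))
        have h6 : (fun x => id x + a) ⁻¹' translate ({x | p x ≤ 1}) a = {x | p x ≤ 1} := by
          ext x
          show x + a - a ∈ {x | p x ≤ 1} ↔ x ∈ {x | p x ≤ 1}
          rw [add_sub_cancel_right]
        rw [← h6]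
        exact h5
      · intro x hx y hy s t hs ht hst
        show p (s • x + t • y) ≤ 1
        have hx' : p x ≤ 1 := hx
        have hy' : p y ≤ 1 := hy
        have h6 := map_add_le_add p (s • x) (t • y)
        rw [map_smul_eq_mul, map_smul_eq_mul, Real.norm_of_nonneg hs, Real.norm_of_nonneg ht] at h6
        nlinarith
      · rw [isBounded_iff_forall_norm_le]
        refine ⟨c⁻¹, fun x hx => ?_⟩
        have hx' : p x ≤ 1 := hx
        have h6 := (hpe x).1
        rw [← one_div, le_div_iff₀ hc]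
        linarith
      · refine ⟨0, ?_⟩
        have h6 := hint 0 0 (by rw [sub_zero, map_zero]; exact one_pos)
        have h7 : translate ({x | p x ≤ 1}) 0 = {x | p x ≤ 1} := by
          ext x
          show x - 0 ∈ {x | p x ≤ 1} ↔ x ∈ {x | p x ≤ 1}
          rw [sub_zero]
        rwa [h7] at h6
    obtain ⟨a, ha, x, hx, b, hb, h⟩ := h5 hsep ({x | p x ≤ 1}) hbody A hA p hp
    have hxa : p (x - a) ≤ 1 := hx
    have hab : a ≠ b := by
      rintro rfl
      exact lt_irrefl _ h
    have hpab : 0 < p (a - b) := by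
      have h6 := (hpe (a - b)).1
      have h7 : 0 < ‖a - b‖ := norm_pos_iff.2 (sub_ne_zero.2 hab)
      have h8 : 0 < c * ‖a - b‖ := by positivity
      linarith
    -- the balls with centres `a` and `b` are different
    have hne' : translate ({x | p x ≤ 1}) a ≠ translate ({x | p x ≤ 1}) b := by
      intro heq
      obtain ⟨z, hz⟩ : ∃ z, z = a + (p (a - b))⁻¹ • (a - b) := ⟨_, rfl⟩
      have h6 : z ∈ translate ({x | p x ≤ 1}) a := by
        show p (z - a) ≤ 1
        rw [hz, add_sub_cancel_left, map_smul_eq_mul, norm_inv, Real.norm_of_nonneg hpab.le,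
          inv_mul_cancel₀ hpab.ne']
      rw [heq] at h6
      have h7 : p (z - b) ≤ 1 := h6
      have h8 : z - b = (1 + (p (a - b))⁻¹) • (a - b) := by
        rw [hz, add_smul, one_smul]
        abel
      rw [h8, map_smul_eq_mul, Real.norm_of_nonneg (by positivity), add_mul,
        inv_mul_cancel₀ hpab.ne'] at h7
      linarith
    have hdis := hA.2.2 ⟨a, ha, rfl⟩ ⟨b, hb, rfl⟩ hne'
    have h2 : 2 ≤ p (a - b) := by
      by_contra hlt
      push Not at hlt
      obtain ⟨m, hm⟩ : ∃ m, m = (1 / 2 : ℝ) • (a + b) := ⟨_, rfl⟩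
      have h6 : m - a = (-(1 / 2) : ℝ) • (a - b) := by
        rw [hm]; module
      have h7 : m - b = (1 / 2 : ℝ) • (a - b) := by
        rw [hm]; module
      have h8 : p (m - a) < 1 := by
        rw [h6, map_smul_eq_mul, norm_neg, Real.norm_of_nonneg (by norm_num)]
        linarith
      have h9 : p (m - b) < 1 := by
        rw [h7, map_smul_eq_mul, Real.norm_of_nonneg (by norm_num)]
        linarith
      exact Set.disjoint_left.1 hdis (hint a m h8) (hint b m h9)
    have h6 : p (a - b) ≤ p (x - a) + p (x - b) := by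
      have h7 : a - b = -(x - a) + (x - b) := by abel
      have h8 := map_add_le_add p (-(x - a)) (x - b)
      rw [← h7, map_neg_eq_map] at h8
      exact h8
    linarith

end Pool.Agent.Results.MP_3191e9_an.VoronoiTilings
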